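import Mathlib
import Pool.Agent.Lib.MP_c9c98b_al.PartA
import Pool.Agent.Lib.MP_c9c98b_al.PartB
import Pool.Agent.Lib.MP_c9c98b_al.PartC
import Pool.Agent.Lib.MP_c9c98b_al.PartE
import Pool.Agent.Lib.MP_c9c98b_al.Univ
import Pool.Agent.Lib.MP_c9c98b_al.Amalgam

/-!
A group all of whose central extensions are residually nilpotent, although some central extension
of some central extension of it is not.

The group is the restricted direct product of the generalised quaternion groups of order
`2 ^ (n + 2)`, `n = 0, 1, 2, ...`. Terms of the lower central series of `E` are written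
`(⊤ : Subgroup E).lowerCentralSeries n` with `n = 0, 1, 2, ...`; in the numbering of the problem
this is the term number `n + 1`.
-/

set_option autoImplicit false

namespace Pool.Agent.Results.MP_c9c98b_al.QuaternionSum

universe u

/-- The homomorphism `π : E → G` is a central extension of `G`: it is surjective and its kernel is
contained in the centre of `E`. -/
def IsCentralExtension {E G : Type*} [Group E] [Group G] (π : E →* G) : Prop :=
  Function.Surjective π ∧ π.ker ≤ Subgroup.center E

/-- `E` is residually nilpotent: the intersection of all terms of its lower central series is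
trivial. -/
def IsResiduallyNilpotent (E : Type*) [Group E] : Prop :=
  ⨅ n : ℕ, (⊤ : Subgroup E).lowerCentralSeries n = ⊥

/-- The restricted direct product of the generalised quaternion groups of order `2 ^ (n + 2)`,
`n = 0, 1, 2, ...`: the families which are trivial outside a finite set of indices. (For `n = 0`
this factor is the cyclic group of order four.) -/
def quaternionSum : Subgroup (∀ n : ℕ, QuaternionGroup (2 ^ n)) where
  carrier := {f | ∃ F : Finset ℕ, ∀ n, n ∉ F → f n = 1}
  mul_mem' := by
    classical
    rintro f g ⟨F, hF⟩ ⟨F', hF'⟩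
    refine ⟨F ∪ F', fun n hn => ?_⟩
    simp only [Finset.mem_union, not_or] at hn
    simp [hF n hn.1, hF' n hn.2]
  one_mem' := ⟨∅, by simp⟩
  inv_mem' := by
    rintro f ⟨F, hF⟩
    exact ⟨F, fun n hn => by simp [hF n hn]⟩

open Pool.Agent.MP_c9c98b_al

theorem central_ext_FS {E : Type u} [Group E] (π : E →* FS Qf) (h : IsCentralExtension π) :
    IsResiduallyNilpotent E ∧ π.ker ⊓ (⊤ : Subgroup E).lowerCentralSeries 2 = ⊥ := by
  have key : ∀ g ∈ (⊤ : Subgroup E).lowerCentralSeries 2, π g = 1 → g = 1 := fun g hg h1 =>
    lcs_inf_ker_univ (fun n E' _ p hp hpk u hu hpu => comm_inf_ker p hp hpk u hu hpu)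
      π h.1 h.2 g hg h1
  constructor
  · rw [IsResiduallyNilpotent, eq_bot_iff]
    intro g hg
    rw [Subgroup.mem_iInf] at hg
    rw [Subgroup.mem_bot]
    refine key g (hg 2) (FS_ext fun n => ?_)
    obtain ⟨c, hc⟩ := Subgroup.nilpotent_iff_lowerCentralSeries.1 (Qf_nilpotent n)
    have h3 := Subgroup.mem_map_of_mem ((proj n).comp π) (hg c)
    rw [Subgroup.map_lowerCentralSeries] at h3
    have h4 : ((proj n).comp π) g ∈ (⊤ : Subgroup (Qf n)).lowerCentralSeries c :=
      Subgroup.lowerCentralSeries_mono c le_top h3
    rw [hc, Subgroup.mem_bot] at h4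
    rw [map_one]
    exact h4
  · rw [eq_bot_iff]
    rintro g ⟨h1, h2⟩
    exact key g h2 h1

/-- Let `G` be the restricted direct product of the generalised quaternion groups of order
`2 ^ (n + 2)`. Every central extension `π : E → G` is residually nilpotent, and the third term of
the lower central series of `E` meets the kernel of `π` trivially. There are central extensions
`π₁ : E₁ → G` and `π₂ : E₂ → E₁` such that `E₂` is not residually nilpotent; the kernel of `π₂` has
order two and is the intersection of all terms of the lower central series of `E₂`. -/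
theorem result :
    (∀ (E : Type u) [Group E] (π : E →* quaternionSum), IsCentralExtension π →
      IsResiduallyNilpotent E ∧ π.ker ⊓ (⊤ : Subgroup E).lowerCentralSeries 2 = ⊥) ∧
    ∃ (E₁ : Type) (_ : Group E₁) (π₁ : E₁ →* quaternionSum)
      (E₂ : Type) (_ : Group E₂) (π₂ : E₂ →* E₁),
      IsCentralExtension π₁ ∧ IsCentralExtension π₂ ∧ ¬ IsResiduallyNilpotent E₂ ∧
      Nat.card π₂.ker = 2 ∧ ⨅ n : ℕ, (⊤ : Subgroup E₂).lowerCentralSeries n = π₂.ker := by
  constructor
  · intro E _ π h
    exact central_ext_FS (E := E) π h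
  · obtain ⟨E₁, g₁, π₁, E₂, g₂, π₂, hs₁, hc₁, hs₂, hc₂, t, ht, ht2, hker, hdeep⟩ :=
      amalgam_strong
        (P := fun n => PP (2 ^ n)) (Q := Qf)
        (fun n => qP (2 ^ n)) (fun n => qP_surj (2 ^ n)) (fun n => zP (2 ^ n))
        (fun n g => zP_central (2 ^ n) g) (fun n => zP_sq (2 ^ n))
        (fun n => zP_ne_one (2 ^ n) (by positivity)) (fun n => qP_zP (2 ^ n))
        (fun n l g hl => ker_comm (2 ^ n) l g hl) (fun n => zP_deep n)
    have hkz : π₂.ker = Subgroup.zpowers t := by
      apply le_antisymm
      · intro x hx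
        rcases (hker x).1 hx with rfl | rfl
        · exact Subgroup.one_mem _
        · exact Subgroup.mem_zpowers _
      · rw [Subgroup.zpowers_le]
        exact (hker t).2 (Or.inr rfl)
    have hinf : ⨅ n : ℕ, (⊤ : Subgroup E₂).lowerCentralSeries n = π₂.ker := by
      apply le_antisymm
      · intro x hx
        rw [Subgroup.mem_iInf] at hx
        have h1 := (central_ext_FS π₁ ⟨hs₁, hc₁⟩).1
        rw [IsResiduallyNilpotent, eq_bot_iff] at h1
        have h2 : π₂ x ∈ ⨅ n : ℕ, (⊤ : Subgroup E₁).lowerCentralSeries n := by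
          rw [Subgroup.mem_iInf]
          intro c
          have h3 := Subgroup.mem_map_of_mem π₂ (hx c)
          rw [Subgroup.map_lowerCentralSeries] at h3
          exact Subgroup.lowerCentralSeries_mono c le_top h3
        exact Subgroup.mem_bot.1 (h1 h2)
      · rw [hkz, Subgroup.zpowers_le, Subgroup.mem_iInf]
        exact hdeep
    refine ⟨E₁, g₁, π₁, E₂, g₂, π₂, ⟨hs₁, hc₁⟩, ⟨hs₂, hc₂⟩, ?_, ?_, hinf⟩
    · rw [IsResiduallyNilpotent, hinf, hkz, Subgroup.zpowers_eq_bot]
      exact ht
    · rw [hkz, Nat.card_zpowers]
      exact orderOf_eq_prime (by rw [pow_two, ht2]) ht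

end Pool.Agent.Results.MP_c9c98b_al.QuaternionSum
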